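import Pool.Agent.MP_a88b1d_nt.H17.Eqa

/-! The relations coming from the second degeneracy map. -/

open Polynomial

noncomputable section

namespace Pool.Agent.MP_a88b1d_nt.H47

open Pool.Agent.MP_a88b1d_nt.H42 Pool.Agent.MP_a88b1d_nt.H17

/-- the five Hermite normal forms of determinant `pp` -/
def NN (i : Fin 5) : M2 A := if i.1 = 4 then !![pp, 0; 0, 1] else !![1, ofN i.1; 0, pp]

def Pt (y : ℕ) (i : Fin 5) : ℕ × ℕ := if i.1 = 4 then (0, mp y) else (4, dp (ad 64 i.1 y))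

def Cond (i : Fin 5) (a b : A) : Prop := if i.1 = 4 then pp ∣ a else pp ∣ b - a * ofN i.1

theorem NN_det (i : Fin 5) : (NN i).det = pp := by
  unfold NN
  split_ifs <;> simp [Matrix.det_fin_two]

theorem cond_ex (hi : IRR) (a b : A) : ∃ i, Cond i a b := by
  by_cases h : pp ∣ a
  · exact ⟨4, by simpa [Cond] using h⟩
  · obtain ⟨s, t, hst⟩ := (hi.1.coprime_iff_not_dvd).mpr h
    have hm : pp.Monic := by unfold pp; monicity!
    have hd : ((t * b) %ₘ pp).degree < (2 : ℕ) := by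
      have := degree_modByMonic_lt (t * b) hm
      rwa [degree_eq_natDegree hm.ne_zero, hi.2.1] at this
    obtain ⟨u, hu, hu'⟩ := exists_ofN hd
    refine ⟨⟨u, by omega⟩, ?_⟩
    have hu4 : u ≠ 4 := by omega
    simp only [Cond, if_neg hu4, hu']
    have h1 := modByMonic_add_div (t * b) pp
    refine ⟨s * b + a * (t * b /ₘ pp), ?_⟩
    linear_combination (-b) * hst - a * h1

theorem cond_uniq (hi : IRR) {a b : A} (h : ¬ (pp ∣ a ∧ pp ∣ b)) {i j : Fin 5}
    (h1 : Cond i a b) (h2 : Cond j a b) : i = j := by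
  have key : ∀ u : ℕ, pp ∣ a → pp ∣ b - a * ofN u → False := fun u ha hb =>
    h ⟨ha, by simpa using dvd_add hb (ha.mul_right (ofN u))⟩
  unfold Cond at h1 h2
  split_ifs at h1 h2 with c1 c2 c2
  · exact Fin.ext (by omega)
  · exact (key _ h1 h2).elim
  · exact (key _ h2 h1).elim
  · have h3 : pp ∣ a * ofN (i.1 ^^^ j.1) := by
      have := dvd_add h1 h2
      rw [ofN_xor]
      convert this using 1
      linear_combination (-1 : A) * add_self_A b + add_self_A (a * ofN i.1) +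
        add_self_A (a * ofN j.1)
    rcases hi.1.prime.dvd_or_dvd h3 with h4 | h4
    · exact (key _ h4 h1).elim
    · have h5 : i.1 ^^^ j.1 < 2 ^ (1 + 1) :=
        Nat.xor_lt_two_pow (by have := i.2; omega) (by have := j.2; omega)
      have h6 := natDegree_ofN_le h5
      have h7 : ofN (i.1 ^^^ j.1) = 0 :=
        eq_zero_of_dvd_of_natDegree_lt h4 (by rw [hi.2.1]; omega)
      have h8 : i.1 ^^^ j.1 = 0 := ofN_injective (by rw [h7, ofN_zero])
      exact Fin.ext (Nat.xor_eq_zero_iff.mp h8)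

/-- the relation `diag (1, pp) * k = g2 * N i` -/
def RR (i : Fin 5) (k g2 : GL (Fin 2) A) : Prop := !![1, 0; 0, pp] * k.1 = g2.1 * NN i

theorem RR_cond {i : Fin 5} {k g2 : GL (Fin 2) A} (h : RR i k g2) :
    Cond i (k.1 0 0) (k.1 0 1) := by
  have h0 := congrFun (congrFun h 0) 0
  have h1 := congrFun (congrFun h 0) 1
  unfold NN at h0 h1
  unfold Cond
  split_ifs at h0 h1 ⊢
  · simp [Matrix.mul_apply, Fin.sum_univ_two] at h0
    exact ⟨_, by rw [h0, mul_comm]⟩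
  · simp [Matrix.mul_apply, Fin.sum_univ_two] at h0 h1
    exact ⟨g2.1 0 1, by rw [h0, h1]; ring⟩

theorem det_unit (k : GL (Fin 2) A) : IsUnit (k.1 0 0 * k.1 1 1 - k.1 0 1 * k.1 1 0) := by
  have := (Matrix.isUnit_iff_isUnit_det k.1).mp k.isUnit
  rwa [Matrix.det_fin_two] at this

theorem RR_of_k (hi : IRR) (hq : PT) {y : ℕ} (k : GL (Fin 2) A)
    (hk : IsPt1 qq 64 y (k.1 1 0) (k.1 1 1)) : ∃ i g2, RR i k g2 ∧ IsPt (Pt y i) g2 := by
  obtain ⟨i, hc⟩ := cond_ex hi (k.1 0 0) (k.1 0 1)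
  have hu := det_unit k
  refine ⟨i, ?_⟩
  unfold RR NN Pt
  unfold Cond at hc
  split_ifs at hc ⊢ with c
  · obtain ⟨a, ha⟩ := hc
    refine ⟨Matrix.GeneralLinearGroup.mk'' !![a, k.1 0 1; k.1 1 0, pp * k.1 1 1] ?_, ?_, ?_, ?_⟩
    · rw [Matrix.det_fin_two_of]
      convert hu using 1
      rw [ha]; ring
    · refine Matrix.ext fun i j => ?_
      fin_cases i <;> fin_cases j <;>
        simp [Matrix.mul_apply, Fin.sum_univ_two, ha, mul_comm]
    · right
      simp [ofN_zero]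
    · simpa using hq.mulp y _ _ hk
  · obtain ⟨b, hb⟩ := hc
    refine ⟨Matrix.GeneralLinearGroup.mk''
      !![k.1 0 0, b; pp * k.1 1 0, k.1 1 1 - k.1 1 0 * ofN i.1] ?_, ?_, ?_, ?_⟩
    · rw [Matrix.det_fin_two_of]
      convert hu using 1
      linear_combination k.1 1 0 * hb
    · refine Matrix.ext fun i j => ?_
      fin_cases i <;> fin_cases j <;> simp [Matrix.mul_apply, Fin.sum_univ_two]
      · linear_combination hb
      · ring
    · left
      simp
    · simpa using hq.divp y i.1 _ _ (by have := i.2; omega) hk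

theorem RR_of_g (hq : PT) {y : ℕ} (hy : y ≤ 64) (i : Fin 5) (g2 : GL (Fin 2) A)
    (hg : IsPt (Pt y i) g2) : ∃ k, RR i k g2 ∧ IsPt1 qq 64 y (k.1 1 0) (k.1 1 1) := by
  have hu := det_unit g2
  unfold RR NN
  unfold Pt at hg
  split_ifs at hg ⊢ with c
  · obtain ⟨h1, h2⟩ := hg
    have h3 : pp ∣ g2.1 1 1 := by simpa [IsPt1, ofN_zero] using h1
    obtain ⟨d, hd⟩ := h3
    refine ⟨Matrix.GeneralLinearGroup.mk'' !![g2.1 0 0 * pp, g2.1 0 1; g2.1 1 0, d] ?_, ?_, ?_⟩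
    · rw [Matrix.det_fin_two_of]
      convert hu using 1
      rw [hd]; ring
    · refine Matrix.ext fun i j => ?_
      fin_cases i <;> fin_cases j <;>
        simp [Matrix.mul_apply, Fin.sum_univ_two, hd, mul_comm]
    · rw [hd] at h2
      simpa using hq.mulp' y _ _ h2 hy
  · obtain ⟨h1, h2⟩ := hg
    have h3 : pp ∣ g2.1 1 0 := by simpa [IsPt1] using h1
    obtain ⟨c1, hc⟩ := h3
    refine ⟨Matrix.GeneralLinearGroup.mk''
      !![g2.1 0 0, g2.1 0 0 * ofN i.1 + g2.1 0 1 * pp; c1, c1 * ofN i.1 + g2.1 1 1] ?_, ?_, ?_⟩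
    · rw [Matrix.det_fin_two_of]
      convert hu using 1
      rw [hc]; ring
    · refine Matrix.ext fun i j => ?_
      fin_cases i <;> fin_cases j <;> simp [Matrix.mul_apply, Fin.sum_univ_two, hc]
      ring
    · rw [hc] at h2
      have := hq.divp' y i.1 c1 (c1 * ofN i.1 + g2.1 1 1) (by have := i.2; omega) hy
        (by simpa using h2)
      simpa using this

theorem reg {M : M2 A} (h : M.det ≠ 0) : IsRegular M :=
  Matrix.isRegular_of_isLeftRegular_det (IsRegular.of_ne_zero h).left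

theorem DD_congr {V : Type} [Monoid V] {d : V → V → ℕ} {s : Fin 3 → V} (h : IsTree d s)
    (x y u u' v v' : V) (h1 : d u v = 0) (h2 : d u' v' = 0) : DD d x y u u' = DD d x y v v' := by
  have key : ∀ z a b, d a b = 0 → d z a = d z b := by
    intro z a b hab
    have t1 := h.tri z a b
    have t2 := h.tri z b a
    have t3 := h.comm a b
    omega
  simp only [DD, key _ _ _ h1, key _ _ _ h2]

variable {C : Type} [NontriviallyNormedField C] [Algebra (ZMod 2) C]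

theorem zero2 {T : C} (hm : PM T) (g h M : M2 A) (m m' k : ℕ) (hg : g.det ≠ 0) (hh : h.det ≠ 0)
    (e1 : g.det.natDegree = m) (e2 : h.det.natDegree = m') (hk : 2 * k ≤ m + m')
    (e : g.adjugate * h = M) (ent : ∀ i j, (M i j).natDegree ≤ k) :
    dd T (pm T g) (pm T h) = 0 := by
  apply hm.zero g h hg hh
  intro i j
  have := ent i j
  rw [e, e1, e2]
  omega

theorem split (T : C) (hi : IRR) (hd : DG) (hp : PA) (ht : TREE T) (hm : PM T) (hq : PT)
    {μ : Gam0 (pp * qq)} (hμ : New μ) {y : ℕ} (hy : y ≤ 64) :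
    ∃ h : Fin 5 → GL (Fin 2) A, (∀ i, IsPt (Pt y i) (h i)) ∧
      ∑ i, Psi (dd T) (r0 T (pp * qq)) (rG T (h i) * (pm T (NN i) * vv T 0))
        (rG T (h i) * (pm T (NN i) * vv T 1)) 1 (r0 T (pp * qq) μ) = 0 := by
  have hpp : pp ≠ 0 := hi.1.ne_zero
  have api := hp _ _ _ _ (r0 T qq) ht.tree (hm.good0 qq).2
  obtain ⟨g, hg0⟩ := hq.surj (0, y) ⟨Nat.zero_le _, hy⟩
  have hg : IsPt1 qq 64 y (g.1 1 0) (g.1 1 1) := hg0.2
  have hle : ∀ (x : ℕ) (c d : A), IsPt1 qq 64 x c d → x ≤ 64 := by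
    rintro x c d (h | h) <;> omega
  have hval : ∀ i, Valid (Pt y i) := by
    intro i
    unfold Pt
    split_ifs
    · exact ⟨Nat.zero_le _, hle _ _ _ (hq.mulp y _ _ hg)⟩
    · exact ⟨le_rfl, hle _ _ _ (hq.divp y i.1 _ _ (by have := i.2; omega) hg)⟩
  choose h hh using fun i => hq.surj _ (hval i)
  refine ⟨h, hh, ?_⟩
  obtain ⟨D, hD⟩ := hd (pp * qq) qq pp (mul_ne_zero hpp hi.2.2.1.ne_zero) (by rw [mul_comm])
  have hδ := (hD μ (D μ)).mpr rfl
  have d1 : (!![pp, 0; 0, 1] : M2 A).det ≠ 0 := by simpa [Matrix.det_fin_two] using hpp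
  have d2 : (!![1, 0; 0, pp] : M2 A).det ≠ 0 := by simpa [Matrix.det_fin_two] using hpp
  have d3 : (!![pp, 0; 0, pp] : M2 A).det ≠ 0 := by simpa [Matrix.det_fin_two] using hpp
  have dN : ∀ i, (NN i).det ≠ 0 := fun i => by rw [NN_det]; exact hpp
  have dG : ∀ k : GL (Fin 2) A, k.1.det ≠ 0 := fun k =>
    ((Matrix.isUnit_iff_isUnit_det k.1).mp k.isUnit).ne_zero
  have h0 := new_zero T hp ht hm hμ pp (Or.inr rfl) (D μ) hδ (rG T g * vv T 0) (rG T g * vv T 1)
  rw [← api.base _ _ _ (pm T !![pp, 0; 0, 1])] at h0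
  have ex : ∀ p : Fin 5 × Gam0 (pp * qq), ∃ g1 : Gam0 qq,
      RR p.1 (g1.1⁻¹ * g) (p.2.1⁻¹ * h p.1) := by
    rintro ⟨i, γ⟩
    obtain ⟨k, k1, k2⟩ := RR_of_g hq hy i _ (hq.left _ _ _ (inv_mem γ.2) (hh i))
    exact ⟨⟨g * k⁻¹, hq.orbq y _ _ k2 hg⟩, by simpa using k1⟩
  choose e he using ex
  have hbij : Function.Bijective e := by
    constructor
    · rintro ⟨i, γ⟩ ⟨j, γ'⟩ hij
      have r1 := he (i, γ)
      have r2 := he (j, γ')
      rw [← hij] at r2
      obtain rfl : i = j := by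
        refine cond_uniq hi ?_ (RR_cond r1) (RR_cond r2)
        rintro ⟨c1, c2⟩
        exact hi.1.not_isUnit (isUnit_of_dvd_unit
          (dvd_sub (c1.mul_right _) (c2.mul_right _)) (det_unit _))
      have r3 : (γ.1⁻¹ * h i).1 * NN i = (γ'.1⁻¹ * h i).1 * NN i := r1.symm.trans r2
      have r4 : γ.1⁻¹ * h i = γ'.1⁻¹ * h i := Units.ext ((reg (dN i)).right r3)
      rw [Subtype.ext (inv_injective (mul_right_cancel r4) : γ.1 = γ'.1)]
    · intro g1
      obtain ⟨i, g2, r1, r2⟩ := RR_of_k hi hq (g1.1⁻¹ * g) (hq.leftq y _ _ (inv_mem g1.2) hg)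
      refine ⟨(i, ⟨h i * g2⁻¹, hq.orb _ _ _ r2 (hh i)⟩), ?_⟩
      have r3 := he (i, ⟨h i * g2⁻¹, hq.orb _ _ _ r2 (hh i)⟩)
      have r4 : (h i * g2⁻¹)⁻¹ * h i = g2 := by simp
      simp only [r4] at r3
      have r5 := Units.ext ((reg d2).left (r3.trans r1.symm))
      exact Subtype.ext (inv_injective (mul_right_cancel r5))
  rw [Psi, finsum_split e hbij _ (api.fin _ _ _ _)] at h0
  rw [← h0]
  refine Finset.sum_congr rfl fun i _ => ?_
  rw [Psi]
  refine finsum_congr fun γ => ?_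
  have r1 : pm T !![1, 0; 0, pp] * rG T ((e (i, γ)).1⁻¹ * g) =
      rG T (γ.1⁻¹ * h i) * pm T (NN i) := by
    rw [hm.rg, hm.rg, ← hm.mul _ _ d2 (dG _), ← hm.mul _ _ (dG _) (dN i)]
    exact congrArg _ (he (i, γ))
  have r2 : r0 T qq (D μ) * pm T !![pp, 0; 0, 1] = pm T !![pp, 0; 0, 1] * rG T μ.1 := by
    rw [r0_eq, hm.rg, hm.rg, ← hm.mul _ _ d1 (dG _), ← hm.mul _ _ (dG _) d1, hδ]
  have r3 : pm T !![1, 0; 0, pp] * pm T !![pp, 0; 0, 1] = pm T !![pp, 0; 0, pp] := by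
    rw [← hm.mul _ _ d2 d1]
    congr 1
    simp
  have r4 : pm T !![pp, 0; 0, pp] * rG T μ.1 = rG T μ.1 * pm T !![pp, 0; 0, pp] := by
    rw [hm.rg, ← hm.mul _ _ d3 (dG _), ← hm.mul _ _ (dG _) d3]
    congr 1
    refine Matrix.ext fun a b => ?_
    fin_cases a <;> fin_cases b <;> simp [Matrix.mul_apply, Fin.sum_univ_two, mul_comm]
  have r5 : dd T 1 (pm T !![pp, 0; 0, pp]) = 0 := by
    rw [← hm.one]
    refine zero2 hm _ _ !![pp, 0; 0, pp] 0 4 2 (by simp) d3 (by simp) ?_ (by omega) (by simp) ?_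
    · rw [Matrix.det_fin_two_of, mul_zero, sub_zero, natDegree_mul hpp hpp, hi.2.1]
    · intro a b
      fin_cases a <;> fin_cases b <;> simp [hi.2.1]
  have r6 : ∀ z : MK T, dd T z (z * pm T !![pp, 0; 0, pp]) = 0 := fun z => by
    have := ht.tree.inv z 1 (pm T !![pp, 0; 0, pp])
    rwa [mul_one, r5] at this
  have x1 : ∀ v : MK T, rG T γ.1 * pm T !![1, 0; 0, pp] * rG T (e (i, γ)).1⁻¹ * (rG T g * v) =
      rG T (h i) * (pm T (NN i) * v) := by
    intro v
    calc _ = rG T γ.1 * (pm T !![1, 0; 0, pp] * rG T ((e (i, γ)).1⁻¹ * g)) * v := by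
          simp only [map_mul, mul_assoc]
      _ = _ := by
          rw [r1, ← mul_assoc, ← map_mul, mul_inv_cancel_left, mul_assoc]
  have x2 : ∀ v : MK T, rG T γ.1 * pm T !![1, 0; 0, pp] * rG T (e (i, γ)).1⁻¹ *
      (r0 T qq (e (i, γ)) * v) = rG T γ.1 * (pm T !![1, 0; 0, pp] * v) := by
    intro v
    rw [r0_eq, mul_assoc, ← mul_assoc (rG T (e (i, γ)).1⁻¹), ← map_mul, inv_mul_cancel, map_one,
      one_mul, mul_assoc]
  rw [← DD_inv ht.tree (rG T γ.1 * pm T !![1, 0; 0, pp] * rG T (e (i, γ)).1⁻¹) (rG T g * vv T 0),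
    x1, x1, x2, x2, r2, ← mul_assoc (pm T !![1, 0; 0, pp]), r3, r4]
  apply DD_congr ht.tree
  · rw [r0_eq, mul_one]
    exact r6 _
  · rw [r0_eq, r0_eq, ← mul_assoc]
    exact r6 _

theorem ofN_two : ofN 2 = X := by simpa using ofN_two_pow 1

theorem ofN_three : ofN 3 = X + 1 := by
  have : (3 : ℕ) = 2 ^^^ 1 := by decide
  rw [this, ofN_xor, ofN_two, ofN_one]

theorem eqb (T : C) (_hT : 1 < ‖T‖) (hi : IRR) (hd : DG) (hp : PA) (ht : TREE T) (hm : PM T)
    (hq : PT) : EQB T := by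
  intro μ f hμ hf y hy
  obtain ⟨h, hh, h0⟩ := split T hi hd hp ht hm hq hμ hy
  have hpp : pp ≠ 0 := hi.1.ne_zero
  have hp2 : pp.natDegree = 2 := hi.2.1
  have api := hp _ _ _ _ (r0 T (pp * qq)) ht.tree (hm.good0 _).2
  have dN : ∀ i, (NN i).det ≠ 0 := fun i => by rw [NN_det]; exact hpp
  have dv : ∀ k : ℕ, (!![X ^ k, 0; 0, 1] : M2 A).det ≠ 0 := fun k => by
    simp [Matrix.det_fin_two]
  have dG : ∀ k : GL (Fin 2) A, k.1.det ≠ 0 := fun k =>
    ((Matrix.isUnit_iff_isUnit_det k.1).mp k.isUnit).ne_zero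
  have nG : ∀ k : GL (Fin 2) A, k.1.det.natDegree = 0 := fun k =>
    natDegree_eq_zero_of_isUnit ((Matrix.isUnit_iff_isUnit_det k.1).mp k.isUnit)
  have gen : ∀ (i : Fin 5) (a b k : ℕ) (w : GL (Fin 2) A) (M : M2 A), 2 * k ≤ 2 + a + b →
      (NN i * !![X ^ a, 0; 0, 1]).adjugate * (w.1 * !![X ^ b, 0; 0, 1]) = M →
      (∀ r s, (M r s).natDegree ≤ k) →
      dd T (rG T (h i) * (pm T (NN i) * vv T a)) (rG T (h i * w) * vv T b) = 0 := by
    intro i a b k w M hk e ent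
    rw [map_mul, mul_assoc, ht.tree.inv, hm.rg, vv, vv, ← hm.mul _ _ (dN i) (dv a),
      ← hm.mul _ _ (dG w) (dv b)]
    refine zero2 hm _ _ M (2 + a) b k ?_ ?_ ?_ ?_ hk e ent
    · rw [Matrix.det_mul]; exact mul_ne_zero (dN i) (dv a)
    · rw [Matrix.det_mul]; exact mul_ne_zero (dG w) (dv b)
    · rw [Matrix.det_mul, natDegree_mul (dN i) (dv a), NN_det, hp2]
      simp [Matrix.det_fin_two]
    · rw [Matrix.det_mul, natDegree_mul (dG w) (dv b), nG]
      simp [Matrix.det_fin_two]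
  have sf : ∀ z : MK T, dd T z z = 0 := ht.tree.self
  have t4 : Psi (dd T) (r0 T (pp * qq)) (rG T (h 4) * (pm T (NN 4) * vv T 0))
      (rG T (h 4) * (pm T (NN 4) * vv T 1)) 1 (r0 T (pp * qq) μ) = f 2 (0, mp y) := by
    rw [hf 2 _ (h 4 * 1) (by simpa [Pt] using hh 4)]
    refine api.congr _ _ _ _ _ _ _ _ (gen 4 0 2 2 1 !![X ^ 2, 0; 0, pp] (by omega) ?_ ?_)
      (gen 4 1 3 3 1 !![X ^ 3, 0; 0, pp * X] (by omega) ?_ ?_) (sf _) (sf _)
    · simp [NN, Matrix.adjugate_fin_two]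
    · intro r s
      fin_cases r <;> fin_cases s <;> simp [hp2]
    · simp [NN, Matrix.adjugate_fin_two]
    · intro r s
      fin_cases r <;> fin_cases s <;> simp [hp2, natDegree_mul_X hpp]
  have t01 : ∀ i : Fin 5, i.1 ≠ 4 → (ofN i.1).natDegree = 0 →
      Psi (dd T) (r0 T (pp * qq)) (rG T (h i) * (pm T (NN i) * vv T 0))
      (rG T (h i) * (pm T (NN i) * vv T 1)) 1 (r0 T (pp * qq) μ) =
        - f 1 (wP (4, dp (ad 64 i.1 y))) := by
    intro i c hc
    rw [hf 1 _ (h i * WW) (hq.actW _ _ (by simpa [Pt, c] using hh i)), ← api.anti]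
    refine api.congr _ _ _ _ _ _ _ _
      (gen i 0 2 2 WW !![-(ofN i.1 * X ^ 2), pp; X ^ 2, 0] (by omega) ?_ ?_)
      (gen i 1 1 2 WW !![-(ofN i.1 * X), pp; X * X, 0] (by omega) ?_ ?_) (sf _) (sf _)
    · simp [NN, c, WW, Matrix.adjugate_fin_two]
    · intro r s
      fin_cases r <;> fin_cases s <;> simp [hp2]
      exact natDegree_mul_le.trans (by simp [hc])
    · simp [NN, c, WW, Matrix.adjugate_fin_two]
    · intro r s
      fin_cases r <;> fin_cases s <;> simp [hp2]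
      · exact natDegree_mul_le.trans (by simp [hc])
  have t23 : ∀ i : Fin 5, i.1 ≠ 4 → (ofN i.1).natDegree ≤ 1 → (pp - ofN i.1 * X).natDegree ≤ 1 →
      Psi (dd T) (r0 T (pp * qq)) (rG T (h i) * (pm T (NN i) * vv T 0))
      (rG T (h i) * (pm T (NN i) * vv T 1)) 1 (r0 T (pp * qq) μ) =
        f 0 (addT 1 (wP (4, dp (ad 64 i.1 y)))) := by
    intro i c hc hc'
    rw [hf 0 _ (h i * (WW * UU (X ^ 1))) (by
      rw [← mul_assoc]
      exact hq.actU 1 _ _ (by omega) (hq.actW _ _ (by simpa [Pt, c] using hh i)))]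
    refine api.congr _ _ _ _ _ _ _ _
      (gen i 0 0 1 _ !![-(ofN i.1), pp - ofN i.1 * X; 1, X] (by omega) ?_ ?_)
      (gen i 1 1 2 _ !![-(ofN i.1 * X), pp - ofN i.1 * X; X * X, X * X] (by omega) ?_ ?_)
      (sf _) (sf _)
    · simp [NN, c, WW, UU, Matrix.adjugate_fin_two, sub_eq_add_neg]
    · intro r s
      fin_cases r <;> fin_cases s <;> simp [hc, hc']
    · simp [NN, c, WW, UU, Matrix.adjugate_fin_two, sub_eq_add_neg]
    · intro r s
      fin_cases r <;> fin_cases s <;> simp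
      · exact natDegree_mul_le.trans (by simp; omega)
      · omega
  have u0 := t01 0 (by decide) (by simp [ofN_zero])
  have u1 := t01 1 (by decide) (by simp [ofN_one])
  have u2 := t23 2 (by decide) (by simp [ofN_two]) (by
    have : pp - ofN (2 : Fin 5).1 * X = X + 1 := by
      show pp - ofN 2 * X = X + 1
      rw [ofN_two, pp]; ring
    rw [this]; compute_degree)
  have u3 := t23 3 (by decide) (by
    show (ofN 3).natDegree ≤ 1
    rw [ofN_three]; compute_degree) (by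
    have : pp - ofN (3 : Fin 5).1 * X = 1 := by
      show pp - ofN 3 * X = 1
      rw [ofN_three, pp]; ring
    rw [this]; simp)
  rw [Fin.sum_univ_five, t4, u0, u1, u2, u3] at h0
  show f 2 (0, mp y) - f 1 (wP (4, dp (ad 64 (0 : Fin 5).1 y))) -
    f 1 (wP (4, dp (ad 64 (1 : Fin 5).1 y))) + f 0 (addT 1 (wP (4, dp (ad 64 (2 : Fin 5).1 y)))) +
    f 0 (addT 1 (wP (4, dp (ad 64 (3 : Fin 5).1 y)))) = 0
  linarith

end Pool.Agent.MP_a88b1d_nt.H47
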